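import Mathlib
import Pool.Agent.W745.Fib.Stm

/-!
Project FM (owner helper745): part C, the convexity inequality.
-/

set_option autoImplicit false

open Polynomial

namespace Pool.Agent.W443.FM

/-- General lemma: `D` of degree `d` with `d` distinct real roots `c`, `V` of degree `≤ d` and
`V(c) / D'(c) ≤ 0` for every root; then `V' D - V D' ≥ 0` everywhere. -/
theorem wronskian_nonneg (D V : ℝ[X]) (s : Finset ℝ) (hD : D ≠ 0) (hs : s.card = D.natDegree)
    (hr : ∀ c ∈ s, D.eval c = 0) (hV : V.natDegree ≤ D.natDegree)
    (h0 : ∀ c ∈ s, (derivative D).eval c ≠ 0)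
    (hle : ∀ c ∈ s, V.eval c / (derivative D).eval c ≤ 0) (x : ℝ) :
    0 ≤ (derivative V).eval x * D.eval x - V.eval x * (derivative D).eval x := by
  classical
  set Q : ℝ → ℝ[X] := fun c => D /ₘ (X - C c) with hQ
  have hfac : ∀ c ∈ s, (X - C c) * Q c = D := by
    intro c hc
    exact (mul_divByMonic_eq_iff_isRoot).2 (hr c hc)
  have hfacE : ∀ c ∈ s, ∀ y : ℝ, (y - c) * (Q c).eval y = D.eval y := by
    intro c hc y
    have := congrArg (fun p => eval y p) (hfac c hc)
    simpa using this
  have hder : ∀ c ∈ s, ∀ y : ℝ,
      (derivative D).eval y = (Q c).eval y + (y - c) * (derivative (Q c)).eval y := by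
    intro c hc y
    have := congrArg (fun p => eval y (derivative p)) (hfac c hc)
    simp only [derivative_mul, derivative_sub, derivative_X, derivative_C, sub_zero, one_mul,
      eval_add, eval_mul, eval_sub, eval_X, eval_C] at this
    exact this.symm
  have hQc : ∀ c ∈ s, (Q c).eval c = (derivative D).eval c := by
    intro c hc
    rw [hder c hc c]; ring
  have hQc' : ∀ c ∈ s, ∀ c' ∈ s, c' ≠ c → (Q c).eval c' = 0 := by
    intro c hc c' hc' hne
    have := hfacE c hc c'
    rw [hr c' hc'] at this
    rcases mul_eq_zero.1 this with h | h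
    · exact absurd (sub_eq_zero.1 h) hne
    · exact h
  have hQdeg : ∀ c ∈ s, (Q c).degree < (s.card : WithBot ℕ) := by
    intro c _
    have h1 : (Q c).degree < D.degree := degree_divByMonic_lt D (X - C c) hD (by
      rw [degree_X_sub_C]; exact zero_lt_one)
    rwa [degree_eq_natDegree hD, ← hs] at h1
  set α : ℝ := V.coeff D.natDegree / D.leadingCoeff with hα
  have hlc : D.leadingCoeff ≠ 0 := leadingCoeff_ne_zero.2 hD
  have hWdeg : (V - C α * D).degree < (s.card : WithBot ℕ) := by
    rw [hs, degree_lt_iff_coeff_zero]
    intro m hm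
    rcases Nat.lt_or_eq_of_le hm with hm | hm
    · rw [coeff_sub, coeff_C_mul, coeff_eq_zero_of_natDegree_lt (lt_of_le_of_lt hV hm),
        coeff_eq_zero_of_natDegree_lt hm]
      simp
    · rw [← hm, coeff_sub, coeff_C_mul, coeff_natDegree, hα]
      field_simp
      ring
  have hSdeg : (∑ c ∈ s, C (V.eval c / (derivative D).eval c) * Q c).degree <
      (s.card : WithBot ℕ) := by
    refine lt_of_le_of_lt (degree_sum_le _ _) ?_
    rw [Finset.sup_lt_iff (by exact WithBot.bot_lt_coe _)]
    intro c hc
    refine lt_of_le_of_lt ?_ (hQdeg c hc)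
    refine le_trans (degree_mul_le _ _) ?_
    calc (C (V.eval c / (derivative D).eval c)).degree + (Q c).degree
        ≤ 0 + (Q c).degree := by
          gcongr
          exact degree_C_le
      _ = (Q c).degree := zero_add _
  have hzero : V - C α * D - ∑ c ∈ s, C (V.eval c / (derivative D).eval c) * Q c = 0 := by
    refine eq_zero_of_degree_lt_of_eval_finset_eq_zero s
      (lt_of_le_of_lt (degree_sub_le _ _) (max_lt hWdeg hSdeg)) ?_
    intro c hc
    rw [eval_sub, eval_sub, eval_finsetSum, Finset.sum_eq_single c]
    · have e : ∀ a : ℝ, ∀ p : ℝ[X], eval c (C a * p) = a * eval c p := by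
        intro a p; rw [eval_mul, eval_C]
      rw [e, e, hQc c hc, hr c hc, div_mul_cancel₀ _ (h0 c hc)]
      ring
    · intro b hb hne
      rw [eval_mul, hQc' b hb c hc (Ne.symm hne), mul_zero]
    · intro h; exact absurd hc h
  have hVeq : V = C α * D + ∑ c ∈ s, C (V.eval c / (derivative D).eval c) * Q c := by
    have := sub_eq_zero.1 hzero
    rw [← this]; ring
  have e1 : V.eval x = α * D.eval x +
      ∑ c ∈ s, V.eval c / (derivative D).eval c * (Q c).eval x := by
    conv_lhs => rw [hVeq]
    simp [eval_finsetSum]
  have e2 : (derivative V).eval x = α * (derivative D).eval x +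
      ∑ c ∈ s, V.eval c / (derivative D).eval c * (derivative (Q c)).eval x := by
    conv_lhs => rw [hVeq]
    simp only [derivative_add, derivative_mul, derivative_C, zero_mul, zero_add, eval_add,
      eval_mul, eval_C, derivative_sum, eval_finsetSum]
  have e3 : (derivative V).eval x * D.eval x - V.eval x * (derivative D).eval x =
      ∑ c ∈ s, -(V.eval c / (derivative D).eval c) * (Q c).eval x ^ 2 := by
    rw [e1, e2]
    have : (α * (derivative D).eval x +
        ∑ c ∈ s, V.eval c / (derivative D).eval c * (derivative (Q c)).eval x) * D.eval x -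
        (α * D.eval x + ∑ c ∈ s, V.eval c / (derivative D).eval c * (Q c).eval x) *
          (derivative D).eval x =
        (∑ c ∈ s, V.eval c / (derivative D).eval c * (derivative (Q c)).eval x) * D.eval x -
        (∑ c ∈ s, V.eval c / (derivative D).eval c * (Q c).eval x) * (derivative D).eval x := by
      ring
    rw [this, Finset.sum_mul, Finset.sum_mul, ← Finset.sum_sub_distrib]
    refine Finset.sum_congr rfl ?_
    intro c hc
    rw [← hfacE c hc x, hder c hc x]
    ring
  rw [e3]
  refine Finset.sum_nonneg ?_
  intro c hc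
  exact mul_nonneg (neg_nonneg.2 (hle c hc)) (sq_nonneg _)

open Pool.Agent.W745.Fib in
/-- part C of project FM -/
theorem fm_C (hB : SB) (hZ : SZ) : SC := by
  intro lam hlam n hn E
  obtain ⟨_, _, hfin, hcard, hsgn⟩ := hZ lam hlam.ne' n hn
  have hb := hB lam hlam n hn
  have hP : P lam n ≠ 0 := P_ne_zero lam n
  have hfib : 0 < Nat.fib n := Nat.fib_pos.2 hn
  have hdeg : (derivative (P lam n)).natDegree = Nat.fib n - 1 := by
    rw [natDegree_derivative, natDegree_P]
  have hD : derivative (P lam n) ≠ 0 := by
    intro h
    have h2 := derivative_eq_zero.1 h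
    rw [natDegree_P] at h2
    omega
  have key := wronskian_nonneg (derivative (P lam n)) (R lam n) hfin.toFinset hD
    (by rw [hdeg, ← hcard, Set.ncard_eq_toFinset_card _ hfin])
    (by
      intro c hc
      exact (hfin.mem_toFinset.1 hc))
    (by rw [hdeg]; exact natDegree_R lam n)
    (by
      intro c hc h
      have := hsgn c (hfin.mem_toFinset.1 hc)
      have h' : dEE lam n c = 0 := h
      rw [h', mul_zero] at this
      exact lt_irrefl _ this)
    (by
      intro c hc
      have hc' : dE lam n c = 0 := hfin.mem_toFinset.1 hc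
      have h1 := hsgn c hc'
      have h2 := hb c hc'
      change dL lam n c / dEE lam n c ≤ 0
      rcases lt_trichotomy (tr lam n c) 0 with h | h | h
      · have h3 : 0 < dEE lam n c := by
          by_contra hcon
          have := mul_nonneg_of_nonpos_of_nonpos h.le (not_lt.1 hcon)
          linarith
        have h4 : dL lam n c < 0 := by
          by_contra hcon
          have := mul_nonpos_of_nonpos_of_nonneg h.le (not_lt.1 hcon)
          linarith
        exact div_nonpos_of_nonpos_of_nonneg h4.le h3.le
      · rw [h, zero_mul] at h1; exact absurd h1 (lt_irrefl _)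
      · have h3 : dEE lam n c < 0 := by
          by_contra hcon
          have := mul_nonneg h.le (not_lt.1 hcon)
          linarith
        have h4 : 0 < dL lam n c := by
          by_contra hcon
          have := mul_nonpos_of_nonneg_of_nonpos h.le (not_lt.1 hcon)
          linarith
        exact div_nonpos_of_nonneg_of_nonpos h4.le h3.le) E
  exact key

end Pool.Agent.W443.FM
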